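import Mathlib
import Pool.Agent.N990.EJ.Stm

/-!
# The conditional law given the couplings is a Gibbs state
-/

open MeasureTheory ProbabilityTheory
open Pool.Agent.N988.EA Pool.Agent.N990.EJ

namespace Pool.Agent.N524.EJ

theorem real_iUnion {Ω ι : Type*} [MeasurableSpace Ω] [Fintype ι] (ν : Measure Ω)
    [IsFiniteMeasure ν] (S : Set Ω) (h : ι → Set Ω) (hm : ∀ i, MeasurableSet (h i))
    (hd : ∀ i j, i ≠ j → Disjoint (h i) (h j)) (hS : ∀ x, x ∈ S ↔ ∃ i, x ∈ h i) :
    ν.real S = ∑ i, ν.real (h i) := by
  rw [← measureReal_biUnion_finset (fun i _ j _ hij => hd i j hij) (fun i _ => hm i)]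
  congr 1
  ext x
  simp [hS]

theorem cpl_mul {b : ℕ} (p : ℕ → Fin b × Bool) (β : ℝ) (w : EdgeInf b p → ℝ) (n : ℕ) :
    cpl p (fun e => β * w e) n = fun e => β * cpl p w n e := by
  induction n with
  | zero => rfl
  | succ n ih =>
    funext e
    simp only [cpl]
    split_ifs with h
    · rw [ih]
    · rfl

theorem meas_cyl {V X : Type} [Countable X] (i : X → V) (s : X → Bool) :
    MeasurableSet {σ : V → Bool | (fun x => σ (i x)) = s} := by
  have h : Measurable fun (σ : V → Bool) => fun x : X => σ (i x) :=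
    measurable_pi_lambda _ fun x => measurable_pi_apply _
  exact h (measurableSet_singleton s)

theorem dlr_ae (h1 : S_GEO) (h2 : S_GWF) (μ : Measure ℝ) [IsProbabilityMeasure μ] (β : ℝ)
    (p : ℕ → Fin 2 × Bool)
    (ρ : Measure ((EdgeInf 2 p → ℝ) × (VInf p → Bool))) [IsFiniteMeasure ρ] (hρ : IsEA μ β p ρ)
    [StandardBorelSpace (VInf p → Bool)] (n : ℕ) (τ : Bool → Bool) (s : Vert 2 n → Bool) :
    ∀ᵐ w ∂ρ.fst, (ρ.condKernel w).real {σ | (fun x => σ (inc p n x)) = Sum.elim τ s} =
      (ρ.condKernel w).real {σ | (fun t => σ (inc p n (.inl t))) = τ} *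
        gw (fun e => β * cpl p w n e) τ s := by
  obtain ⟨-, -, -, hinj, -, hrepl, -, -, -, -, hcplm, -⟩ := h1 p
  obtain ⟨hg0, hg1, -, hgm⟩ := h2 n
  have hgle : ∀ (J : Edge 2 n → ℝ) τ s, gw J τ s ≤ 1 := fun J τ s => by
    rw [← hg1 J τ]
    exact Finset.single_le_sum (fun i _ => hg0 J τ i) (Finset.mem_univ s)
  set S1 : Set (VInf p → Bool) := {σ | (fun x => σ (inc p n x)) = Sum.elim τ s} with hS1d
  set S2 : Set (VInf p → Bool) := {σ | (fun t => σ (inc p n (.inl t))) = τ} with hS2d
  have hS1 : MeasurableSet S1 := meas_cyl (inc p n) (Sum.elim τ s)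
  have hS2 : MeasurableSet S2 := meas_cyl (fun t => inc p n (.inl t)) τ
  set G : (EdgeInf 2 p → ℝ) → ℝ := fun w => gw (fun e => β * cpl p w n e) τ s with hGd
  have hG : Measurable G := by
    refine (hgm τ s).comp ?_
    refine measurable_pi_lambda _ fun e => ?_
    exact ((measurable_pi_apply e).comp (hcplm n)).const_mul β
  have hG0 : ∀ w, 0 ≤ G w := fun w => hg0 _ _ _
  have hG1 : ∀ w, G w ≤ 1 := fun w => hgle _ _ _
  have hk : ∀ S, MeasurableSet S → Measurable fun w => (ρ.condKernel w).real S := fun S hS =>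
    (Kernel.measurable_coe _ hS).ennreal_toReal
  have hk1 : ∀ S w, (ρ.condKernel w).real S ≤ 1 := fun S w => measureReal_le_one
  have hk0 : ∀ S w, 0 ≤ (ρ.condKernel w).real S := fun S w => measureReal_nonneg
  -- membership after replacing the spins inside
  have hmem : ∀ (ω : VInf p → Bool) s', repl p n ω s' ∈ S1 ↔ (ω ∈ S2 ∧ s' = s) := by
    intro ω s'
    have hl : ∀ t, repl p n ω s' (inc p n (.inl t)) = ω (inc p n (.inl t)) := fun t =>
      (hrepl n ω s').2 _ fun x hx => by
        have := hinj n hx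
        cases this
    have hr : ∀ x, repl p n ω s' (inc p n (.inr x)) = s' x := (hrepl n ω s').1
    constructor
    · intro h
      constructor
      · funext t
        have := congrFun h (.inl t)
        simp only [Sum.elim_inl] at this
        rw [hl] at this
        exact this
      · funext x
        have := congrFun h (.inr x)
        simp only [Sum.elim_inr] at this
        rw [hr] at this
        exact this
    · rintro ⟨h, rfl⟩
      funext x
      cases x with
      | inl t =>
        simp only [Sum.elim_inl]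
        rw [hl]
        exact congrFun h t
      | inr x =>
        simp only [Sum.elim_inr]
        rw [hr]
  set f1 : (EdgeInf 2 p → ℝ) × (VInf p → Bool) → ℝ := fun ω => S1.indicator 1 ω.2 with hf1d
  set f2 : (EdgeInf 2 p → ℝ) × (VInf p → Bool) → ℝ := fun ω => G ω.1 * S2.indicator 1 ω.2
    with hf2d
  have hf1m : Measurable f1 := (measurable_one.indicator hS1).comp measurable_snd
  have hf2m : Measurable f2 :=
    (hG.comp measurable_fst).mul ((measurable_one.indicator hS2).comp measurable_snd)
  have hind : ∀ (S : Set (VInf p → Bool)) σ, (0 : ℝ) ≤ S.indicator (1 : (VInf p → Bool) → ℝ) σ ∧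
      S.indicator (1 : (VInf p → Bool) → ℝ) σ ≤ 1 := by
    intro S σ
    by_cases h : σ ∈ S
    · rw [Set.indicator_of_mem h]; simp
    · rw [Set.indicator_of_notMem h]; simp
  have hf1b : ∀ ω, |f1 ω| ≤ 1 := fun ω => by
    rw [hf1d]
    simp only
    rw [abs_of_nonneg (hind S1 ω.2).1]
    exact (hind S1 ω.2).2
  have hf2b : ∀ ω, |f2 ω| ≤ 1 := fun ω => by
    rw [hf2d]
    simp only
    rw [abs_of_nonneg (mul_nonneg (hG0 _) (hind S2 ω.2).1)]
    exact mul_le_one₀ (hG1 _) (hind S2 ω.2).1 (hind S2 ω.2).2
  have hf1i : Integrable f1 ρ := Integrable.of_bound hf1m.aestronglyMeasurable 1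
    (Filter.Eventually.of_forall fun ω => by rw [Real.norm_eq_abs]; exact hf1b ω)
  have hf2i : Integrable f2 ρ := Integrable.of_bound hf2m.aestronglyMeasurable 1
    (Filter.Eventually.of_forall fun ω => by rw [Real.norm_eq_abs]; exact hf2b ω)
  have hkey : ∀ A, MeasurableSet A → ∫ w in A, (ρ.condKernel w).real S1 ∂ρ.fst =
      ∫ w in A, (ρ.condKernel w).real S2 * G w ∂ρ.fst := by
    intro A hA
    have e1 : ∀ w, (ρ.condKernel w).real S1 = ∫ σ, f1 (w, σ) ∂(ρ.condKernel w) := fun w => by
      rw [hf1d]
      simp only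
      rw [integral_indicator_one hS1]
    have e2 : ∀ w, (ρ.condKernel w).real S2 * G w = ∫ σ, f2 (w, σ) ∂(ρ.condKernel w) := fun w => by
      rw [hf2d]
      simp only
      rw [integral_const_mul, integral_indicator_one hS2, mul_comm]
    simp_rw [e1, e2]
    rw [MeasureTheory.Measure.setIntegral_condKernel_univ_right hA hf1i.integrableOn,
      MeasureTheory.Measure.setIntegral_condKernel_univ_right hA hf2i.integrableOn,
      ← integral_indicator (hA.prod MeasurableSet.univ),
      ← integral_indicator (hA.prod MeasurableSet.univ)]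
    rw [hρ.dlr n ((A ×ˢ Set.univ).indicator f1)
      (hf1m.indicator (hA.prod MeasurableSet.univ))
      ⟨1, fun ω => by
        by_cases h : ω ∈ A ×ˢ (Set.univ : Set (VInf p → Bool))
        · rw [Set.indicator_of_mem h]; exact hf1b ω
        · rw [Set.indicator_of_notMem h]; simp⟩]
    refine integral_congr_ae (Filter.Eventually.of_forall fun ω => ?_)
    show ∑ s' : Vert 2 n → Bool, gw (fun e => β * cpl p ω.1 n e)
      (fun t => ω.2 (inc p n (.inl t))) s' *
        (A ×ˢ Set.univ).indicator f1 (ω.1, repl p n ω.2 s') = (A ×ˢ Set.univ).indicator f2 ω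
    by_cases hw : ω.1 ∈ A
    · rw [Set.indicator_of_mem (show ω ∈ A ×ˢ (Set.univ : Set (VInf p → Bool)) from
        ⟨hw, trivial⟩)]
      have e3 : ∀ s', (A ×ˢ (Set.univ : Set (VInf p → Bool))).indicator f1
          (ω.1, repl p n ω.2 s') = S1.indicator 1 (repl p n ω.2 s') := fun s' => by
        rw [Set.indicator_of_mem (show (ω.1, repl p n ω.2 s') ∈
          A ×ˢ (Set.univ : Set (VInf p → Bool)) from ⟨hw, trivial⟩)]
      simp_rw [e3]
      rw [Finset.sum_eq_single s]
      · rw [hf2d]
        simp only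
        by_cases h : ω.2 ∈ S2
        · rw [Set.indicator_of_mem ((hmem ω.2 s).2 ⟨h, rfl⟩), Set.indicator_of_mem h]
          have h' : (fun t => ω.2 (inc p n (.inl t))) = τ := h
          rw [h']
          rfl
        · rw [Set.indicator_of_notMem h, Set.indicator_of_notMem fun h' => h ((hmem ω.2 s).1 h').1]
          simp
      · intro s' _ hs'
        rw [Set.indicator_of_notMem fun h' => hs' ((hmem ω.2 s').1 h').2, mul_zero]
      · intro h
        exact absurd (Finset.mem_univ _) h
    · rw [Set.indicator_of_notMem (show ω ∉ A ×ˢ (Set.univ : Set (VInf p → Bool)) from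
        fun h => hw h.1)]
      refine Finset.sum_eq_zero fun s' _ => ?_
      rw [Set.indicator_of_notMem (show (ω.1, repl p n ω.2 s') ∉
        A ×ˢ (Set.univ : Set (VInf p → Bool)) from fun h => hw h.1), mul_zero]
  refine Integrable.ae_eq_of_forall_setIntegral_eq _ _ ?_ ?_ (fun A hA _ => hkey A hA)
  · exact Integrable.of_bound (hk S1 hS1).aestronglyMeasurable 1
      (Filter.Eventually.of_forall fun w => by
        rw [Real.norm_eq_abs, abs_of_nonneg (hk0 _ _)]; exact hk1 _ _)
  · exact Integrable.of_bound ((hk S2 hS2).mul hG).aestronglyMeasurable 1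
      (Filter.Eventually.of_forall fun w => by
        rw [Real.norm_eq_abs, abs_of_nonneg (mul_nonneg (hk0 _ _) (hG0 _))]
        exact mul_le_one₀ (hk1 _ _) (hG0 _) (hG1 _))

theorem t_dis (h1 : S_GEO) (h2 : S_GWF) : S_DIS := by
  intro μ _ β p ρ _ hρ _
  have hfst : ρ.fst = Measure.infinitePi fun _ : EdgeInf 2 p => μ := hρ.couplings
  rw [← hfst]
  have hall : ∀ᵐ w ∂ρ.fst, ∀ (n : ℕ) (τ : Bool → Bool) (s : Vert 2 n → Bool),
      (ρ.condKernel w).real {σ | (fun x => σ (inc p n x)) = Sum.elim τ s} =
      (ρ.condKernel w).real {σ | (fun t => σ (inc p n (.inl t))) = τ} *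
        gw (fun e => β * cpl p w n e) τ s := by
    rw [ae_all_iff]
    intro n
    rw [ae_all_iff]
    intro τ
    rw [ae_all_iff]
    intro s
    exact dlr_ae h1 h2 μ β p ρ hρ n τ s
  filter_upwards [hall] with w hw
  refine ⟨fun n s => measureReal_nonneg, fun n => ?_, fun n s => ?_, fun n τ s => ?_⟩
  · rw [← real_iUnion (ρ.condKernel w) Set.univ
      (fun s : Pt 2 n → Bool => {σ | (fun x => σ (inc p n x)) = s})
      (fun s => meas_cyl _ s) (fun i j hij => ?_) (fun σ => ?_)]
    · simp
    · rw [Set.disjoint_left]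
      intro σ h3 h4
      exact hij (h3.symm.trans h4)
    · simp
  · obtain ⟨-, -, hemb, -⟩ := h1 p
    have e : ∀ s' : Pt 2 (n + 1) → Bool,
        (if s' ∘ emb (p n).1 (p n).2 = s then
          (ρ.condKernel w).real {σ | (fun x => σ (inc p (n + 1) x)) = s'} else 0) =
        (ρ.condKernel w).real {σ | (fun x => σ (inc p (n + 1) x)) = s' ∧
          s' ∘ emb (p n).1 (p n).2 = s} := by
      intro s'
      split_ifs with h
      · simp [h]
      · simp [h]
    rw [Finset.sum_congr rfl fun s' _ => e s']
    refine real_iUnion (ρ.condKernel w) _ (fun s' : Pt 2 (n + 1) → Bool =>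
      {σ | (fun x => σ (inc p (n + 1) x)) = s' ∧ s' ∘ emb (p n).1 (p n).2 = s}) (fun s' => ?_)
      (fun i j hij => ?_) (fun σ => ?_)
    · by_cases h : s' ∘ emb (p n).1 (p n).2 = s
      · simp only [h, and_true]
        exact meas_cyl _ s'
      · simp [h]
    · rw [Set.disjoint_left]
      intro σ h3 h4
      exact hij (h3.1.symm.trans h4.1)
    · simp only [Set.mem_ofPred_eq]
      constructor
      · intro h
        refine ⟨fun x => σ (inc p (n + 1) x), rfl, ?_⟩
        rw [← h]
        funext x
        simp only [Function.comp_apply]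
        rw [hemb]
      · rintro ⟨s', h3, h4⟩
        rw [← h4, ← h3]
        funext x
        simp only [Function.comp_apply]
        rw [hemb]
  · rw [hw n τ s, cpl_mul]
    congr 1
    refine real_iUnion (ρ.condKernel w) _ (fun s' : Vert 2 n → Bool =>
      {σ | (fun x => σ (inc p n x)) = Sum.elim τ s'}) (fun s' => meas_cyl _ _)
      (fun i j hij => ?_) (fun σ => ?_)
    · rw [Set.disjoint_left]
      intro σ h3 h4
      apply hij
      have h5 : (Sum.elim τ i : Pt 2 n → Bool) = Sum.elim τ j := h3.symm.trans h4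
      funext x
      exact congrFun h5 (.inr x)
    · simp only [Set.mem_ofPred_eq]
      constructor
      · intro h
        refine ⟨fun x => σ (inc p n (.inr x)), ?_⟩
        funext x
        cases x with
        | inl t => exact congrFun h t
        | inr x => rfl
      · rintro ⟨s', h⟩
        funext t
        exact congrFun h (.inl t)

end Pool.Agent.N524.EJ
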